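import Mathlib.Topology.UnitInterval
import Mathlib.Topology.Bases
import Mathlib.Topology.Instances.Real.Lemmas
import Mathlib.SetTheory.Cardinal.Basic
import Pool.Agent.Q154.HClosedExample

set_option autoImplicit false

/-!
# An almost and weakly Scheepers space which is not weakly Scheepers in Kočinac's sense
-/

open Set Topology

namespace Pool.Agent.Results.MP_23a291_gt.UrysohnExample

/-- `𝒰` is an open cover of `X`. -/
def IsOpenCover {X : Type} [TopologicalSpace X] (𝒰 : Set (Set X)) : Prop :=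
  (∀ U ∈ 𝒰, IsOpen U) ∧ ⋃₀ 𝒰 = univ

/-- `𝒱` is a selection from `𝒰`: a sequence of finite subfamilies. -/
def IsSelection {X : Type} (𝒰 𝒱 : ℕ → Set (Set X)) : Prop := ∀ n, 𝒱 n ⊆ 𝒰 n ∧ (𝒱 n).Finite

/-- Almost Scheepers spaces. -/
def AlmostScheepers (X : Type) [TopologicalSpace X] : Prop :=
  ∀ 𝒰 : ℕ → Set (Set X), (∀ n, IsOpenCover (𝒰 n)) → ∃ 𝒱, IsSelection 𝒰 𝒱 ∧
    ∀ F : Set X, F.Finite → {n | F ⊆ closure (⋃₀ (𝒱 n))}.Infinite

/-- Weakly Scheepers spaces. -/
def WeaklyScheepers (X : Type) [TopologicalSpace X] : Prop :=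
  ∀ 𝒰 : ℕ → Set (Set X), (∀ n, IsOpenCover (𝒰 n)) → ∃ 𝒱, IsSelection 𝒰 𝒱 ∧
    ∀ ℱ : Set (Set X), ℱ.Finite → (∀ U ∈ ℱ, IsOpen U ∧ U.Nonempty) →
      {n | ∀ U ∈ ℱ, (U ∩ ⋃₀ (𝒱 n)).Nonempty}.Infinite

/-- Weakly Scheepers spaces in the sense of Kočinac. -/
def WeaklyScheepersKocinac (X : Type) [TopologicalSpace X] : Prop :=
  ∀ 𝒰 : ℕ → Set (Set X), (∀ n, IsOpenCover (𝒰 n)) → ∃ (Y : Set X) (𝒱 : ℕ → Set (Set X)),
    Dense Y ∧ IsSelection 𝒰 𝒱 ∧ ∀ F : Set X, F.Finite → F ⊆ Y → {n | F ⊆ ⋃₀ (𝒱 n)}.Infinite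

open Q154.HClosedExample

/-- There is a Urysohn space which is almost Scheepers and weakly Scheepers but not weakly Scheepers
in the sense of Kočinac; moreover every open cover of it has a finite subfamily with dense union. -/
theorem result : ∃ (X : Type) (_ : TopologicalSpace X), T25Space X ∧
    (∀ 𝒰 : Set (Set X), IsOpenCover 𝒰 → ∃ 𝒱 ⊆ 𝒰, 𝒱.Finite ∧ Dense (⋃₀ 𝒱)) ∧
    AlmostScheepers X ∧ WeaklyScheepers X ∧ ¬ WeaklyScheepersKocinac X := by
  let κ : Type := Set ℕ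
  let τ : TopologicalSpace κ := ⊥
  have hτ : DiscreteTopology κ := ⟨rfl⟩
  have hinf : Infinite κ := inferInstanceAs (Infinite (Set ℕ))
  let q : ℕ → unitInterval := TopologicalSpace.denseSeq unitInterval
  have hq : DenseRange q := TopologicalSpace.denseRange_denseSeq unitInterval
  have hac : ∀ 𝒰 : Set (Set (Sp unitInterval κ q)), IsOpenCover 𝒰 →
      ∃ 𝒱 ⊆ 𝒰, 𝒱.Finite ∧ Dense (⋃₀ 𝒱) := fun 𝒰 h => almost_compact hq 𝒰 h.1 h.2
  refine ⟨Sp unitInterval κ q, inferInstance, inferInstance, hac, ?_, ?_, ?_⟩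
  · intro 𝒰 h
    choose 𝒱 h1 h2 h3 using fun n => hac (𝒰 n) (h n)
    refine ⟨𝒱, fun n => ⟨h1 n, h2 n⟩, fun F _ => ?_⟩
    refine infinite_univ.mono fun n _ => ?_
    show F ⊆ closure _
    rw [(h3 n).closure_eq]
    exact subset_univ F
  · intro 𝒰 h
    choose 𝒱 h1 h2 h3 using fun n => hac (𝒰 n) (h n)
    refine ⟨𝒱, fun n => ⟨h1 n, h2 n⟩, fun ℱ _ hℱ => ?_⟩
    refine infinite_univ.mono fun n _ U hU => ?_
    exact (h3 n).inter_open_nonempty U (hℱ U hU).1 (hℱ U hU).2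
  · intro h
    -- the covers
    let B : ℕ → Set (Sp unitInterval κ q) := fun n => {p | ∀ x i, x ∈ D q n → p ≠ pt x i}
    let S : κ → Set (Sp unitInterval κ q) := fun i => {p | ∃ x ∈ range q, p = pt x i}
    have hB : ∀ n, IsOpen (B n) := by
      intro n
      rw [isOpen_iff]
      constructor
      · intro x i hx
        refine ⟨(D q n)ᶜ, (D_finite n).isClosed.isOpen_compl, fun h' => hx x i h' rfl, ?_, ?_⟩
        · intro y hy _ z j hz h'
          exact hy ((pt_inj.1 h').1 ▸ hz)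
        · intro _ y hy z j hz h'
          exact hy ((pt_inj.1 h').1 ▸ hz)
      · intro _
        refine ⟨∅, n, finite_empty, fun i _ x hx z j hz h' => ?_⟩
        exact hx ((pt_inj.1 h').1 ▸ hz)
    have hS : ∀ i, IsOpen (S i) := by
      intro i
      rw [isOpen_iff]
      constructor
      · rintro x j ⟨z, hz, h'⟩
        obtain ⟨rfl, rfl⟩ := pt_inj.1 h'
        exact ⟨univ, isOpen_univ, trivial, fun y _ hy => ⟨y, hy, rfl⟩, fun hn => absurd hz hn⟩
      · rintro ⟨x, _, h'⟩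
        exact absurd h' (inf_ne x i)
    have hSne : ∀ i, (S i).Nonempty := fun i => ⟨pt (q 0) i, q 0, ⟨0, rfl⟩, rfl⟩
    obtain ⟨Y, 𝒱, hY, h𝒱, hF⟩ := h (fun n => insert (B n) (range S)) (by
      intro n
      refine ⟨?_, ?_⟩
      · rintro U (rfl | ⟨i, rfl⟩)
        · exact hB n
        · exact hS i
      · rw [eq_univ_iff_forall]
        intro p
        by_cases hp : p ∈ B n
        · exact ⟨_, Or.inl rfl, hp⟩
        · simp only [B, mem_ofPred_eq, not_forall, not_not] at hp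
          obtain ⟨x, i, hx, rfl⟩ := hp
          obtain ⟨m, _, rfl⟩ := hx
          exact ⟨S i, Or.inr ⟨i, rfl⟩, q m, ⟨m, rfl⟩, rfl⟩)
    -- an index which is never used
    have hSinj : Function.Injective S := by
      intro i j hij
      have h1 : (pt (q 0) i : Sp unitInterval κ q) ∈ S j := by
        rw [← hij]; exact ⟨q 0, ⟨0, rfl⟩, rfl⟩
      obtain ⟨x, _, hx⟩ := h1
      exact (pt_inj.1 hx).2
    have hcount : (⋃ n, {i | S i ∈ 𝒱 n}).Countable := by
      refine countable_iUnion fun n => ?_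
      exact ((h𝒱 n).2.preimage hSinj.injOn).countable
    have hex : ∃ i, i ∉ (⋃ n, {i | S i ∈ 𝒱 n}) := by
      by_contra hcon
      push Not at hcon
      have h1 : (univ : Set κ).Countable := hcount.mono fun i _ => hcon i
      rw [countable_univ_iff] at h1
      have h2 : Countable (Set ℕ) := h1
      obtain ⟨f, hf⟩ := exists_surjective_nat (Set ℕ)
      exact Function.cantor_surjective f hf
    obtain ⟨i, hi⟩ := hex
    obtain ⟨y, hyS, hyY⟩ := hY.inter_open_nonempty (S i) (hS i) (hSne i)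
    obtain ⟨x, ⟨m, rfl⟩, rfl⟩ := hyS
    refine (hF {pt (q m) i} (finite_singleton _) (by simpa using hyY)) ?_
    refine (finite_Iio m).subset ?_
    intro n hn
    rw [mem_ofPred_eq, singleton_subset_iff] at hn
    obtain ⟨V, hV, hmV⟩ := hn
    rcases (h𝒱 n).1 hV with rfl | ⟨j, rfl⟩
    · rw [mem_Iio]
      by_contra hnm
      rw [not_lt] at hnm
      exact hmV (q m) i ⟨m, hnm, rfl⟩ rfl
    · obtain ⟨z, _, hz⟩ := hmV
      have hij : i = j := (pt_inj.1 hz).2
      subst hij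
      exact (hi (mem_iUnion.2 ⟨n, hV⟩)).elim

end Pool.Agent.Results.MP_23a291_gt.UrysohnExample
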